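import Mathlib

/-!
Lower and upper bounds for the index of permutability of the symmetric groups.
-/

set_option autoImplicit false

namespace Pool.Agent.Results.MP_c6e9f4_al.Bounds

/-- Every `k`-tuple of elements of `G` has a non-identity reordering with the same product. -/
def Permutable (G : Type) [Group G] (k : ℕ) : Prop :=
  ∀ x : Fin k → G, ∃ σ : Equiv.Perm (Fin k), σ ≠ 1 ∧
    (List.ofFn x).prod = (List.ofFn (fun i => x (σ i))).prod

/-! ### Transfer along an injective homomorphism -/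

theorem Permutable.of_injective {G H : Type} [Group G] [Group H] (f : G →* H)
    (hf : Function.Injective f) {k : ℕ} (h : Permutable H k) : Permutable G k := by
  intro x
  obtain ⟨σ, hσ, e⟩ := h (fun i => f (x i))
  refine ⟨σ, hσ, hf ?_⟩
  rw [map_list_prod, map_list_prod, List.map_ofFn, List.map_ofFn]
  exact e

/-! ### The lower bound -/

/-- The affine permutation `(u, v) ↦ (u + 1, v + j u)`. -/
def E (M : ℕ) (j : ℕ) : Equiv.Perm (ZMod M × ZMod M) where
  toFun w := (w.1 + 1, w.2 + j * w.1)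
  invFun w := (w.1 - 1, w.2 - j * (w.1 - 1))
  left_inv w := by
    ext <;> simp
  right_inv w := by
    ext <;> simp

theorem E_apply (M j : ℕ) (w : ZMod M × ZMod M) : E M j w = (w.1 + 1, w.2 + j * w.1) := rfl

theorem prod_apply (M : ℕ) (k : ℕ) (f : Fin k → ℕ) :
    (List.ofFn (fun i => E M (f i))).prod (0, 0) =
      ((k : ZMod M), ∑ i : Fin k, (f i : ZMod M) * ((k - 1 - (i : ℕ) : ℕ) : ZMod M)) := by
  induction k with
  | zero => simp
  | succ k ih =>
    rw [List.ofFn_succ, List.prod_cons, Equiv.Perm.mul_apply, ih (fun i => f i.succ), E_apply,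
      Fin.sum_univ_succ]
    ext
    · simp
    · simp only [Fin.val_zero, Fin.val_succ]
      rw [add_comm]
      congr 1
      apply Finset.sum_congr rfl
      intro i _
      congr 2
      omega

theorem sum_sq_lt (k : ℕ) (hk : 0 < k) : (∑ i : Fin k, ((i : ℕ) : ℤ) ^ 2) < (k : ℤ) ^ 3 := by
  have h1 : (∑ i : Fin k, ((i : ℕ) : ℤ) ^ 2) ≤ ∑ _i : Fin k, ((k : ℤ) - 1) ^ 2 := by
    apply Finset.sum_le_sum
    intro i _
    have h2 : ((i : ℕ) : ℤ) ≤ (k : ℤ) - 1 := by
      have := i.2
      omega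
    have h3 : (0 : ℤ) ≤ ((i : ℕ) : ℤ) := by positivity
    nlinarith
  rw [Finset.sum_const, Finset.card_univ, Fintype.card_fin, nsmul_eq_mul] at h1
  have hk' : (1 : ℤ) ≤ (k : ℤ) := by exact_mod_cast hk
  nlinarith

/-- The deficit of a permutation. -/
def D {k : ℕ} (σ : Equiv.Perm (Fin k)) : ℤ :=
  ∑ i : Fin k, (((i : ℕ) : ℤ) ^ 2 - ((σ i : ℕ) : ℤ) * ((i : ℕ) : ℤ))

theorem two_D {k : ℕ} (σ : Equiv.Perm (Fin k)) :
    2 * D σ = ∑ i : Fin k, (((i : ℕ) : ℤ) - ((σ i : ℕ) : ℤ)) ^ 2 := by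
  have h : ∑ i : Fin k, ((σ i : ℕ) : ℤ) ^ 2 = ∑ i : Fin k, ((i : ℕ) : ℤ) ^ 2 :=
    Equiv.sum_comp σ (fun i : Fin k => ((i : ℕ) : ℤ) ^ 2)
  have h2 : ∑ i : Fin k, (((i : ℕ) : ℤ) - ((σ i : ℕ) : ℤ)) ^ 2 =
      ∑ i : Fin k, ((i : ℕ) : ℤ) ^ 2 + ∑ i : Fin k, ((σ i : ℕ) : ℤ) ^ 2 -
        2 * ∑ i : Fin k, ((σ i : ℕ) : ℤ) * ((i : ℕ) : ℤ) := by
    rw [Finset.mul_sum, ← Finset.sum_add_distrib, ← Finset.sum_sub_distrib]
    apply Finset.sum_congr rfl
    intro i _
    ring
  rw [h2, h, D, Finset.sum_sub_distrib]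
  ring

theorem D_pos {k : ℕ} (σ : Equiv.Perm (Fin k)) (hσ : σ ≠ 1) : 0 < D σ := by
  have h := two_D σ
  obtain ⟨i, hi⟩ : ∃ i, σ i ≠ i := by
    by_contra hcon
    push Not at hcon
    exact hσ (Equiv.ext hcon)
  have h1 : 0 < ∑ i : Fin k, (((i : ℕ) : ℤ) - ((σ i : ℕ) : ℤ)) ^ 2 := by
    apply Finset.sum_pos'
    · intro j _
      positivity
    · refine ⟨i, Finset.mem_univ i, ?_⟩
      have : ((i : ℕ) : ℤ) - ((σ i : ℕ) : ℤ) ≠ 0 := by
        intro h0
        apply hi
        apply Fin.ext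
        omega
      positivity
  omega

theorem D_lt {k : ℕ} (hk : 0 < k) (σ : Equiv.Perm (Fin k)) : D σ < (k : ℤ) ^ 3 := by
  refine lt_of_le_of_lt ?_ (sum_sq_lt k hk)
  apply Finset.sum_le_sum
  intro i _
  have h1 : (0 : ℤ) ≤ ((σ i : ℕ) : ℤ) * ((i : ℕ) : ℤ) := by positivity
  linarith

theorem dvd_D {k : ℕ} (M : ℕ) (σ : Equiv.Perm (Fin k))
    (h : (List.ofFn (fun i : Fin k => E M (i : ℕ))).prod =
      (List.ofFn (fun i : Fin k => E M (σ i : ℕ))).prod) : (M : ℤ) ∣ D σ := by
  rw [← ZMod.intCast_zmod_eq_zero_iff_dvd]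
  have h0 := congrArg (fun p => (p (0, 0)).2) h
  simp only [prod_apply] at h0
  have key : ∀ f : Fin k → ℕ, ∑ i : Fin k, (f i : ZMod M) * ((k - 1 - (i : ℕ) : ℕ) : ZMod M) =
      ((k : ZMod M) - 1) * ∑ i : Fin k, (f i : ZMod M) -
        ∑ i : Fin k, (f i : ZMod M) * ((i : ℕ) : ZMod M) := by
    intro f
    rw [Finset.mul_sum, ← Finset.sum_sub_distrib]
    apply Finset.sum_congr rfl
    intro i _
    have hi := i.2
    have hc : ((k - 1 - (i : ℕ) : ℕ) : ZMod M) = (k : ZMod M) - 1 - ((i : ℕ) : ZMod M) := by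
      rw [Nat.cast_sub (by omega), Nat.cast_sub (by omega)]
      simp
    rw [hc]
    ring
  rw [key, key] at h0
  have h1 : ∑ i : Fin k, ((σ i : ℕ) : ZMod M) = ∑ i : Fin k, ((i : ℕ) : ZMod M) :=
    Equiv.sum_comp σ (fun i : Fin k => ((i : ℕ) : ZMod M))
  rw [h1] at h0
  have h2 : ∑ i : Fin k, ((i : ℕ) : ZMod M) * ((i : ℕ) : ZMod M) =
      ∑ i : Fin k, ((σ i : ℕ) : ZMod M) * ((i : ℕ) : ZMod M) := by
    linear_combination -h0
  rw [D]
  push_cast
  rw [Finset.sum_sub_distrib, ← h2, sub_eq_zero]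
  apply Finset.sum_congr rfl
  intro i _
  ring

theorem centralBinom_dvd (h d : ℕ) (hd : d ≠ 0) (hdiv : ∀ m, 1 ≤ m → m ≤ 2 * h → m ∣ d) :
    Nat.centralBinom h ∣ d := by
  rcases Nat.eq_zero_or_pos h with h0 | hpos
  · subst h0
    simp
  rw [← Nat.factorization_prime_le_iff_dvd (Nat.centralBinom_ne_zero h) hd]
  intro p hp
  have h1 : (Nat.centralBinom h).factorization p ≤ Nat.log p (2 * h) :=
    Nat.factorization_choose_le_log
  refine h1.trans ?_
  rw [← hp.pow_dvd_iff_le_factorization hd]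
  exact hdiv _ (Nat.pow_pos hp.pos) (Nat.pow_log_le_self p (by omega))

/-- The product of the symmetric groups on the planes over `ℤ/m`, `m ≤ 2h`. -/
abbrev Pr (h : ℕ) : Type := ∀ m : Fin (2 * h), Equiv.Perm (ZMod ((m : ℕ) + 1) × ZMod ((m : ℕ) + 1))

theorem not_permutable_Pr (h k : ℕ) (hh : 1 ≤ h) (hk : 2 ≤ k) (hkh : k ^ 3 ≤ 2 ^ h) :
    ¬ Permutable (Pr h) k := by
  intro hP
  obtain ⟨σ, hσ, e⟩ := hP (fun i m => E ((m : ℕ) + 1) (i : ℕ))
  have hdiv : ∀ m, 1 ≤ m → m ≤ 2 * h → m ∣ (D σ).natAbs := by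
    intro m hm1 hm2
    rw [← Int.natCast_dvd]
    let m' : Fin (2 * h) := ⟨m - 1, by omega⟩
    have hm' : (m' : ℕ) + 1 = m := by
      simp only [m']
      omega
    have e1 := congrArg (Pi.evalMonoidHom
      (fun m : Fin (2 * h) => Equiv.Perm (ZMod ((m : ℕ) + 1) × ZMod ((m : ℕ) + 1))) m') e
    rw [map_list_prod, map_list_prod, List.map_ofFn, List.map_ofFn] at e1
    have e2 := dvd_D ((m' : ℕ) + 1) σ e1
    rw [hm'] at e2
    exact e2
  have hpos := D_pos σ hσ
  have hlt := D_lt (by omega : 0 < k) σ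
  have hc := centralBinom_dvd h (D σ).natAbs (by omega) hdiv
  have hle := Nat.le_of_dvd (by omega) hc
  have h4 := Nat.four_pow_le_two_mul_self_mul_centralBinom h (by omega)
  have hlt' : (D σ).natAbs < k ^ 3 := by
    have : ((D σ).natAbs : ℤ) = D σ := Int.natAbs_of_nonneg hpos.le
    have h5 : ((D σ).natAbs : ℤ) < ((k ^ 3 : ℕ) : ℤ) := by
      rw [this]
      push_cast
      exact hlt
    exact_mod_cast h5
  have h6 : 2 * h ≤ 2 ^ h := by
    have : h - 1 < 2 ^ (h - 1) := Nat.lt_two_pow_self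
    have h7 : 2 ^ h = 2 * 2 ^ (h - 1) := by
      conv_lhs => rw [show h = (h - 1) + 1 by omega]
      rw [pow_succ]
      ring
    omega
  have h8 : 4 ^ h = 2 ^ h * 2 ^ h := by
    rw [← mul_pow]
    norm_num
  have h9 : 2 * h * Nat.centralBinom h < 2 ^ h * 2 ^ h := by
    have h10 : Nat.centralBinom h < 2 ^ h := by omega
    calc 2 * h * Nat.centralBinom h < 2 * h * 2 ^ h := by
          apply Nat.mul_lt_mul_of_pos_left h10 (by omega)
      _ ≤ 2 ^ h * 2 ^ h := Nat.mul_le_mul_right _ h6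
  omega

theorem card_points (h : ℕ) (hh : 1 ≤ h) :
    Fintype.card (Σ m : Fin (2 * h), ZMod ((m : ℕ) + 1) × ZMod ((m : ℕ) + 1)) ≤ 5 * h ^ 3 := by
  rw [Fintype.card_sigma]
  simp only [Fintype.card_prod, ZMod.card]
  rw [Fin.sum_univ_eq_sum_range (fun m => (m + 1) * (m + 1)) (2 * h)]
  have key : ∀ N : ℕ, 6 * ∑ m ∈ Finset.range N, (m + 1) * (m + 1) = N * (N + 1) * (2 * N + 1) := by
    intro N
    induction N with
    | zero => simp
    | succ N ih =>
      rw [Finset.sum_range_succ, mul_add, ih]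
      ring
  have h1 := key (2 * h)
  have h2 : 2 * h * (2 * h + 1) * (2 * (2 * h) + 1) ≤ 6 * (5 * h ^ 3) := by
    have h3 : h ≤ h ^ 2 := by nlinarith
    have h4 : h ^ 2 ≤ h ^ 3 := by nlinarith [sq_nonneg h, pow_pos (show 0 < h by omega) 2]
    nlinarith
  omega

theorem lower (n h k : ℕ) (hh : 1 ≤ h) (hn : 5 * h ^ 3 ≤ n) (hk : 2 ≤ k)
    (hkh : k ^ 3 ≤ 2 ^ h) : ¬ Permutable (Equiv.Perm (Fin n)) k := by
  intro hP
  have hcard := (card_points h hh).trans hn
  rw [← Fintype.card_fin n] at hcard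
  obtain ⟨ι⟩ := Function.Embedding.nonempty_of_card_le hcard
  let f : Pr h →* Equiv.Perm (Fin n) :=
    (Equiv.Perm.viaEmbeddingHom ι).comp (Equiv.Perm.sigmaCongrRightHom _)
  have hf : Function.Injective f :=
    (Equiv.Perm.viaEmbeddingHom_injective ι).comp Equiv.Perm.sigmaCongrRightHom_injective
  exact not_permutable_Pr h k hh hk hkh (Permutable.of_injective f hf hP)

/-! ### The upper bound -/

theorem exists_perm {k : ℕ} (l : List (Fin k)) (hl : l.Perm (List.finRange k)) :
    ∃ σ : Equiv.Perm (Fin k), l = List.ofFn (fun i => σ i) := by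
  have hlen : l.length = k := by
    rw [hl.length_eq, List.length_finRange]
  have hnd : l.Nodup := hl.nodup_iff.mpr (List.nodup_finRange k)
  let f : Fin k → Fin k := fun i => l.get (i.cast hlen.symm)
  have hf : Function.Injective f := by
    intro a b hab
    have := (List.nodup_iff_injective_get.mp hnd) hab
    exact Fin.cast_injective _ this
  refine ⟨Equiv.ofBijective f (Finite.injective_iff_bijective.mp hf), ?_⟩
  apply List.ext_getElem
  · simp [hlen]
  · intro i h1 h2
    simp [f]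

/-- A product of four lists of indices in which the two middle ones may be interchanged. -/
theorem swap_blocks {G : Type} [Group G] {k : ℕ} (x : Fin k → G) (I1 I2 I3 I4 : List (Fin k))
    (hF : List.finRange k = I1 ++ (I2 ++ (I3 ++ I4))) (h2 : I2 ≠ []) (h3 : I3 ≠ [])
    (hc : (I2.map x).prod * (I3.map x).prod = (I3.map x).prod * (I2.map x).prod) :
    ∃ σ : Equiv.Perm (Fin k), σ ≠ 1 ∧
      (List.ofFn x).prod = (List.ofFn (fun i => x (σ i))).prod := by
  have hperm : (I1 ++ (I3 ++ (I2 ++ I4))).Perm (List.finRange k) := by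
    rw [hF]
    apply List.Perm.append_left
    rw [← List.append_assoc, ← List.append_assoc]
    exact List.Perm.append_right _ List.perm_append_comm
  obtain ⟨σ, hσ⟩ := exists_perm _ hperm
  refine ⟨σ, ?_, ?_⟩
  · intro h1
    subst h1
    have e : I1 ++ (I3 ++ (I2 ++ I4)) = I1 ++ (I2 ++ (I3 ++ I4)) := by
      rw [← hF, hσ]
      simpa using (List.ofFn_eq_map (f := fun i : Fin k => i))
    have e2 := List.append_cancel_left e
    have hnd := List.nodup_finRange k
    rw [hF] at hnd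
    have hd := (List.nodup_append.mp (List.nodup_append.mp hnd).2.1).2.2
    obtain ⟨a, I2', rfl⟩ := List.exists_cons_of_ne_nil h2
    obtain ⟨b, I3', rfl⟩ := List.exists_cons_of_ne_nil h3
    simp only [List.cons_append, List.cons.injEq] at e2
    exact hd a (by simp) b (by simp) e2.1.symm
  · have e1 : List.ofFn x = (List.finRange k).map x := List.ofFn_eq_map
    have e2 : List.ofFn (fun i => x (σ i)) = (I1 ++ (I3 ++ (I2 ++ I4))).map x := by
      rw [hσ, List.map_ofFn]
      rfl
    rw [e1, e2, hF]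
    simp only [List.map_append, List.prod_append]
    congr 1
    rw [← mul_assoc, hc, mul_assoc]

theorem permutable_of_index {G : Type} [Group G] [Finite G] (A : Subgroup G)
    (hA : ∀ a ∈ A, ∀ b ∈ A, a * b = b * a) (k : ℕ) (hk : 2 * A.index ≤ k) :
    Permutable G k := by
  classical
  intro x
  let F := List.finRange k
  let q : ℕ → G := fun t => ((F.take t).map x).prod
  have : Fintype (G ⧸ A) := Fintype.ofFinite _
  have hcard : (Finset.univ : Finset (G ⧸ A)).card * 2 < (Finset.range (k + 1)).card := by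
    rw [Finset.card_univ, Finset.card_range, ← Nat.card_eq_fintype_card]
    have : Nat.card (G ⧸ A) = A.index := rfl
    omega
  obtain ⟨c, _, hc⟩ := Finset.exists_lt_card_fiber_of_mul_lt_card_of_maps_to
    (f := fun t => (q t : G ⧸ A)) (fun t _ => Finset.mem_univ _) hcard
  rw [Finset.two_lt_card] at hc
  obtain ⟨a, ha, b, hb, d, hd, hab, had, hbd⟩ := hc
  -- sort the three
  have hsort : ∃ i s t : ℕ, 0 < s ∧ 0 < t ∧ i + s + t ≤ k ∧
      ((q i : G ⧸ A) = c) ∧ ((q (i + s) : G ⧸ A) = c) ∧ ((q (i + s + t) : G ⧸ A) = c) := by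
    simp only [Finset.mem_filter, Finset.mem_range] at ha hb hd
    have aux : ∀ a b d : ℕ, a < b → b < d → (a < k + 1 ∧ (q a : G ⧸ A) = c) →
        (b < k + 1 ∧ (q b : G ⧸ A) = c) → (d < k + 1 ∧ (q d : G ⧸ A) = c) →
        ∃ i s t : ℕ, 0 < s ∧ 0 < t ∧ i + s + t ≤ k ∧
      ((q i : G ⧸ A) = c) ∧ ((q (i + s) : G ⧸ A) = c) ∧ ((q (i + s + t) : G ⧸ A) = c) := by
      intro a b d hab hbd ha hb hd
      refine ⟨a, b - a, d - b, by omega, by omega, by omega, ha.2, ?_, ?_⟩
      · rw [show a + (b - a) = b by omega]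
        exact hb.2
      · rw [show a + (b - a) + (d - b) = d by omega]
        exact hd.2
    rcases lt_or_gt_of_ne hab with h1 | h1 <;> rcases lt_or_gt_of_ne had with h2 | h2 <;>
      rcases lt_or_gt_of_ne hbd with h3 | h3
    · exact aux a b d h1 h3 ha hb hd
    · exact aux a d b h2 h3 ha hd hb
    · omega
    · exact aux d a b h2 h1 hd ha hb
    · exact aux b a d h1 h2 hb ha hd
    · omega
    · exact aux b d a h3 h2 hb hd ha
    · exact aux d b a h3 h1 hd hb ha
  obtain ⟨i, s, t, hs, ht, hk', h1, h2, h3⟩ := hsort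
  have hF : F = F.take i ++ ((F.drop i).take s ++ ((F.drop (i + s)).take t ++
      F.drop (i + s + t))) := by
    rw [← List.drop_drop (i := t) (j := i + s), List.take_append_drop,
      ← List.drop_drop (i := s) (j := i), List.take_append_drop, List.take_append_drop]
  have hq1 : q (i + s) = q i * (((F.drop i).take s).map x).prod := by
    simp only [q]
    rw [List.take_add, List.map_append, List.prod_append]
  have hq2 : q (i + s + t) = q (i + s) * (((F.drop (i + s)).take t).map x).prod := by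
    simp only [q]
    rw [List.take_add, List.map_append, List.prod_append]
  have hlen : F.length = k := List.length_finRange
  refine swap_blocks x (F.take i) ((F.drop i).take s) ((F.drop (i + s)).take t)
    (F.drop (i + s + t)) hF ?_ ?_ ?_
  · intro h0
    have := congrArg List.length h0
    rw [List.length_take, List.length_drop, hlen, List.length_nil] at this
    omega
  · intro h0
    have := congrArg List.length h0
    rw [List.length_take, List.length_drop, hlen, List.length_nil] at this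
    omega
  · apply hA
    · have := QuotientGroup.eq.mp (h1.trans h2.symm)
      rw [hq1, inv_mul_cancel_left] at this
      exact this
    · have := QuotientGroup.eq.mp (h2.trans h3.symm)
      rw [hq2, inv_mul_cancel_left] at this
      exact this

/-- A subgroup of the symmetric group which is commutative and has order `3 ^ (n / 3)`. -/
theorem exists_abelian (n : ℕ) : ∃ A : Subgroup (Equiv.Perm (Fin n)),
    (∀ a ∈ A, ∀ b ∈ A, a * b = b * a) ∧ Nat.card A = 3 ^ (n / 3) := by
  have hcard : Fintype.card (Σ _ : Fin (n / 3), Multiplicative (ZMod 3)) ≤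
      Fintype.card (Fin n) := by
    rw [Fintype.card_sigma]
    simp only [Fintype.card_multiplicative, ZMod.card, Finset.sum_const, Finset.card_univ,
      Fintype.card_fin, smul_eq_mul]
    omega
  obtain ⟨ι⟩ := Function.Embedding.nonempty_of_card_le hcard
  let c : Multiplicative (ZMod 3) →* Equiv.Perm (Multiplicative (ZMod 3)) :=
    MulAction.toPermHom _ _
  have hc : Function.Injective c := MulAction.toPerm_injective
  let p : (Fin (n / 3) → Multiplicative (ZMod 3)) →*
      (Fin (n / 3) → Equiv.Perm (Multiplicative (ZMod 3))) :=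
    { toFun := fun g i => c (g i)
      map_one' := by
        funext i
        simp
      map_mul' := by
        intro a b
        funext i
        simp }
  have hp : Function.Injective p := by
    intro a b hab
    funext i
    exact hc (congrFun hab i)
  let f : (Fin (n / 3) → Multiplicative (ZMod 3)) →* Equiv.Perm (Fin n) :=
    ((Equiv.Perm.viaEmbeddingHom ι).comp (Equiv.Perm.sigmaCongrRightHom _)).comp p
  have hf : Function.Injective f :=
    ((Equiv.Perm.viaEmbeddingHom_injective ι).comp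
      Equiv.Perm.sigmaCongrRightHom_injective).comp hp
  refine ⟨f.range, ?_, ?_⟩
  · rintro _ ⟨a, rfl⟩ _ ⟨b, rfl⟩
    rw [← map_mul, ← map_mul, mul_comm]
  · rw [← Nat.card_congr (MonoidHom.ofInjective hf).toEquiv]
    simp

theorem upper (n k : ℕ) (hk : 2 * n.factorial ≤ k * 3 ^ (n / 3)) :
    Permutable (Equiv.Perm (Fin n)) k := by
  obtain ⟨A, hA, hcard⟩ := exists_abelian n
  have h1 := A.index_mul_card
  rw [hcard, Nat.card_eq_fintype_card, Fintype.card_perm, Fintype.card_fin] at h1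
  apply permutable_of_index A hA k
  have h3 : 0 < 3 ^ (n / 3) := by positivity
  rw [← h1, ← mul_assoc] at hk
  exact Nat.le_of_mul_le_mul_right hk h3

/-- The index of permutability of the symmetric group on `n` letters exists, its cube is larger
than `2 ^ h` whenever `5 h³ ≤ n`, and it is at most `2 · n! / 3 ^ (n / 3)`. -/
theorem result (n : ℕ) :
    ∃ K : ℕ, IsLeast {k : ℕ | 2 ≤ k ∧ Permutable (Equiv.Perm (Fin n)) k} K ∧
      (∀ h : ℕ, 5 * h ^ 3 ≤ n → 2 ^ h < K ^ 3) ∧
      K * 3 ^ (n / 3) ≤ 2 * n.factorial := by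
  classical
  obtain ⟨A, hA, hcard⟩ := exists_abelian n
  have h1 := A.index_mul_card
  rw [hcard, Nat.card_eq_fintype_card, Fintype.card_perm, Fintype.card_fin] at h1
  have hidx : A.index ≠ 0 := Subgroup.index_ne_zero_of_finite
  have hmem : (2 * A.index) ∈ {k : ℕ | 2 ≤ k ∧ Permutable (Equiv.Perm (Fin n)) k} :=
    ⟨by omega, permutable_of_index A hA _ le_rfl⟩
  have hex : ∃ k, 2 ≤ k ∧ Permutable (Equiv.Perm (Fin n)) k := ⟨_, hmem⟩
  refine ⟨Nat.find hex, ⟨Nat.find_spec hex, fun k hk => Nat.find_min' hex hk⟩, ?_, ?_⟩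
  · intro h hn
    by_contra hcon
    push Not at hcon
    have hs := Nat.find_spec hex
    rcases Nat.eq_zero_or_pos h with h0 | hpos
    · subst h0
      have h8 : 2 ^ 3 ≤ (Nat.find hex) ^ 3 := Nat.pow_le_pow_left hs.1 3
      omega
    · exact lower n h _ hpos hn hs.1 hcon hs.2
  · calc Nat.find hex * 3 ^ (n / 3) ≤ (2 * A.index) * 3 ^ (n / 3) :=
        Nat.mul_le_mul_right _ (Nat.find_min' hex hmem)
      _ = 2 * n.factorial := by rw [mul_assoc, h1]

end Pool.Agent.Results.MP_c6e9f4_al.Bounds
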