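import Mathlib

set_option autoImplicit false

namespace Pool.Agent.Results.MP_c6e9f4_al.SuperPolyIndex

/-- `G` is `k`-permutable: every `k`-tuple of elements of `G` has a reordering by a
non-identity permutation with the same product. -/
def KPermutable (G : Type) [Group G] (k : ℕ) : Prop :=
  ∀ x : Fin k → G, ∃ σ : Equiv.Perm (Fin k), σ ≠ 1 ∧
    (List.ofFn x).prod = (List.ofFn (fun i => x (σ i))).prod

/-- `k` is the index of permutability of `G`: the least `k ≥ 2` such that `G` is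
`k`-permutable. -/
def IsIndex (G : Type) [Group G] (k : ℕ) : Prop :=
  IsLeast {j : ℕ | 2 ≤ j ∧ KPermutable G j} k

/-- the set acted on: the disjoint union of the squares of `ℤ/1, …, ℤ/y` -/
abbrev Om (y : ℕ) : Type := Σ m : Fin y, ZMod (m.1 + 1) × ZMod (m.1 + 1)

/-- the permutation `(u, v) ↦ (u + 1, v + l u)` -/
def g (y : ℕ) (l : ℤ) : Equiv.Perm (Om y) where
  toFun w := ⟨w.1, (w.2.1 + 1, w.2.2 + (l : ZMod (w.1.1 + 1)) * w.2.1)⟩
  invFun w := ⟨w.1, (w.2.1 - 1, w.2.2 - (l : ZMod (w.1.1 + 1)) * (w.2.1 - 1))⟩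
  left_inv := by
    rintro ⟨m, u, v⟩
    simp
  right_inv := by
    rintro ⟨m, u, v⟩
    simp

/-- the second coordinate of the image of the origin -/
def W : List ℤ → ℤ
  | [] => 0
  | (l :: L) => W L + l * (L.length : ℤ)

theorem prod_apply (y : ℕ) (m : Fin y) (L : List ℤ) :
    ((L.map (g y)).prod) (⟨m, (0, 0)⟩ : Om y) =
      ⟨m, (((L.length : ℤ) : ZMod (m.1 + 1)), ((W L : ℤ) : ZMod (m.1 + 1)))⟩ := by
  induction L with
  | nil => simp [W]
  | cons l L ih =>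
    rw [List.map_cons, List.prod_cons, Equiv.Perm.mul_apply, ih]
    simp only [g, Equiv.coe_fn_mk, W, List.length_cons]
    push_cast
    rfl

theorem W_ofFn (k : ℕ) (f : Fin k → ℤ) :
    W (List.ofFn f) = ∑ i : Fin k, f i * ((k : ℤ) - 1 - (i : ℕ)) := by
  induction k with
  | zero => simp [W]
  | succ k ih =>
    rw [List.ofFn_succ]
    simp only [W, List.length_ofFn]
    rw [ih, Fin.sum_univ_succ]
    simp only [Fin.val_zero, Fin.val_succ]
    rw [add_comm]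
    congr 1
    · push_cast; ring
    · apply Finset.sum_congr rfl
      intro i _
      push_cast; ring

/-- the defect of a reordering -/
def D {k : ℕ} (σ : Equiv.Perm (Fin k)) : ℤ :=
  W (List.ofFn (fun i => ((σ i : ℕ) : ℤ))) - W (List.ofFn (fun i : Fin k => ((i : ℕ) : ℤ)))

theorem two_D {k : ℕ} (σ : Equiv.Perm (Fin k)) :
    2 * D σ = ∑ i : Fin k, (((σ i : ℕ) : ℤ) - ((i : ℕ) : ℤ)) ^ 2 := by
  unfold D
  rw [W_ofFn, W_ofFn]
  have h1 : ∑ i : Fin k, ((σ i : ℕ) : ℤ) = ∑ i : Fin k, ((i : ℕ) : ℤ) :=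
    Equiv.sum_comp σ (fun i : Fin k => ((i : ℕ) : ℤ))
  have h2 : ∑ i : Fin k, ((σ i : ℕ) : ℤ) ^ 2 = ∑ i : Fin k, ((i : ℕ) : ℤ) ^ 2 :=
    Equiv.sum_comp σ (fun i : Fin k => ((i : ℕ) : ℤ) ^ 2)
  have e1 : ∑ i : Fin k, ((σ i : ℕ) : ℤ) * ((k : ℤ) - 1 - ((i : ℕ) : ℤ)) =
      ((k : ℤ) - 1) * ∑ i : Fin k, ((σ i : ℕ) : ℤ) - ∑ i : Fin k, ((σ i : ℕ) : ℤ) * ((i : ℕ) : ℤ) := by
    rw [Finset.mul_sum, ← Finset.sum_sub_distrib]
    apply Finset.sum_congr rfl; intro i _; ring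
  have e2 : ∑ i : Fin k, ((i : ℕ) : ℤ) * ((k : ℤ) - 1 - ((i : ℕ) : ℤ)) =
      ((k : ℤ) - 1) * ∑ i : Fin k, ((i : ℕ) : ℤ) - ∑ i : Fin k, ((i : ℕ) : ℤ) ^ 2 := by
    rw [Finset.mul_sum, ← Finset.sum_sub_distrib]
    apply Finset.sum_congr rfl; intro i _; ring
  have e3 : ∑ i : Fin k, (((σ i : ℕ) : ℤ) - ((i : ℕ) : ℤ)) ^ 2 =
      ∑ i : Fin k, ((σ i : ℕ) : ℤ) ^ 2 - 2 * ∑ i : Fin k, ((σ i : ℕ) : ℤ) * ((i : ℕ) : ℤ) +
        ∑ i : Fin k, ((i : ℕ) : ℤ) ^ 2 := by
    rw [Finset.mul_sum, ← Finset.sum_sub_distrib, ← Finset.sum_add_distrib]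
    apply Finset.sum_congr rfl; intro i _; ring
  rw [e1, e2, e3, h1, h2]; ring

theorem D_pos {k : ℕ} (σ : Equiv.Perm (Fin k)) (h : σ ≠ 1) : 0 < D σ := by
  have h1 : ∃ i, σ i ≠ i := by
    by_contra hc
    push Not at hc
    exact h (Equiv.ext hc)
  obtain ⟨i, hi⟩ := h1
  have h2 : 0 < ∑ i : Fin k, (((σ i : ℕ) : ℤ) - ((i : ℕ) : ℤ)) ^ 2 := by
    apply Finset.sum_pos' (fun j _ => sq_nonneg _)
    refine ⟨i, Finset.mem_univ _, ?_⟩
    have : ((σ i : ℕ) : ℤ) - ((i : ℕ) : ℤ) ≠ 0 := by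
      intro h0
      apply hi
      apply Fin.ext
      omega
    positivity
  rw [← two_D] at h2
  omega

theorem D_lt {k : ℕ} (σ : Equiv.Perm (Fin k)) (h : σ ≠ 1) : 2 * D σ < (k : ℤ) ^ 3 := by
  have hk : 0 < k := by
    rcases Nat.eq_zero_or_pos k with h0 | h0
    · subst h0
      exact absurd (Subsingleton.elim σ 1) h
    · exact h0
  rw [two_D]
  have h1 : ∑ i : Fin k, (((σ i : ℕ) : ℤ) - ((i : ℕ) : ℤ)) ^ 2 < ∑ i : Fin k, (k : ℤ) ^ 2 := by
    apply Finset.sum_lt_sum_of_nonempty ⟨⟨0, hk⟩, Finset.mem_univ _⟩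
    intro i _
    have a1 := (σ i).2
    have a2 := i.2
    have b1 : ((σ i : ℕ) : ℤ) < k := by exact_mod_cast a1
    have b2 : ((i : ℕ) : ℤ) < k := by exact_mod_cast a2
    have c1 : (0:ℤ) ≤ ((σ i : ℕ) : ℤ) := by positivity
    have c2 : (0:ℤ) ≤ ((i : ℕ) : ℤ) := by positivity
    apply sq_lt_sq'
    · linarith
    · linarith
  rw [Finset.sum_const, Finset.card_univ, Fintype.card_fin, nsmul_eq_mul] at h1
  calc _ < (k : ℤ) * (k : ℤ) ^ 2 := h1
    _ = (k : ℤ) ^ 3 := by ring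

theorem core (y n k : ℕ) (hn : y ^ 3 ≤ n) (hk : k ^ 3 * (y + 1) ≤ 2 ^ (y + 1)) :
    ¬ KPermutable (Equiv.Perm (Fin n)) k := by
  intro hP
  have hcard : Fintype.card (Om y) ≤ Fintype.card (Fin n) := by
    rw [Fintype.card_sigma, Fintype.card_fin]
    refine le_trans ?_ hn
    calc ∑ m : Fin y, Fintype.card (ZMod (m.1 + 1) × ZMod (m.1 + 1))
        ≤ ∑ m : Fin y, y ^ 2 := by
          apply Finset.sum_le_sum
          intro m _
          rw [Fintype.card_prod, ZMod.card]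
          have := m.2
          nlinarith
      _ = y ^ 3 := by
          rw [Finset.sum_const, Finset.card_univ, Fintype.card_fin, smul_eq_mul]; ring
  obtain ⟨ι⟩ := Function.Embedding.nonempty_of_card_le hcard
  obtain ⟨σ, hσ, he⟩ := hP (fun i => Equiv.Perm.viaEmbeddingHom ι (g y ((i : ℕ) : ℤ)))
  have key : ∀ f : Fin k → ℤ, (List.ofFn (fun i => Equiv.Perm.viaEmbeddingHom ι (g y (f i)))).prod =
      Equiv.Perm.viaEmbeddingHom ι (((List.ofFn f).map (g y)).prod) := by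
    intro f
    rw [map_list_prod, List.map_map, List.map_ofFn]
    rfl
  have he2 : Equiv.Perm.viaEmbeddingHom ι (((List.ofFn (fun i : Fin k => ((i : ℕ) : ℤ))).map (g y)).prod) =
      Equiv.Perm.viaEmbeddingHom ι (((List.ofFn (fun i : Fin k => ((σ i : ℕ) : ℤ))).map (g y)).prod) := by
    rw [← key, ← key]; exact he
  have he3 := Equiv.Perm.viaEmbeddingHom_injective ι he2
  have hdvd : ∀ m : ℕ, 1 ≤ m → m ≤ y → (m : ℤ) ∣ D σ := by
    intro m hm1 hm2
    obtain ⟨m', rfl⟩ : ∃ m', m = m' + 1 := ⟨m - 1, by omega⟩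
    have h1 := congrArg (fun φ : Equiv.Perm (Om y) => φ ⟨⟨m', by omega⟩, (0, 0)⟩) he3
    simp only [prod_apply] at h1
    have h2 := eq_of_heq (Sigma.mk.inj h1).2
    have h3 := congrArg Prod.snd h2
    simp only at h3
    rw [ZMod.intCast_eq_intCast_iff_dvd_sub] at h3
    unfold D
    exact h3
  have hDpos := D_pos σ hσ
  have hDlt := D_lt σ hσ
  have hlcm : Nat.lcmUpto y ∣ (D σ).natAbs := by
    unfold Nat.lcmUpto
    apply Finset.lcm_dvd
    intro m hm
    rw [Finset.mem_Icc] at hm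
    have := hdvd m hm.1 hm.2
    exact Int.natCast_dvd.mp this
  have hle : Nat.lcmUpto y ≤ (D σ).natAbs := Nat.le_of_dvd (by omega) hlcm
  have h2y := Chebyshev.two_pow_le_mul_lcmUpto y
  have h4 : 2 * (D σ).natAbs < k ^ 3 := by
    have : ((2 * (D σ).natAbs : ℕ) : ℤ) < ((k ^ 3 : ℕ) : ℤ) := by
      push_cast
      rw [abs_of_pos hDpos]; exact hDlt
    exact_mod_cast this
  have h5 : 2 ^ (y + 1) < k ^ 3 * (y + 1) := by
    rw [pow_succ]
    have : 0 < y + 1 := Nat.succ_pos y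
    nlinarith
  omega

theorem aux_sq (s : ℕ) : s ^ 2 ≤ 4 * 2 ^ s := by
  induction s with
  | zero => norm_num
  | succ s ih =>
    rcases Nat.lt_or_ge s 3 with h | h
    · interval_cases s <;> norm_num
    · rw [pow_succ 2 s]
      nlinarith

/-- integer form -/
theorem index_pow (y n k : ℕ) (hn : y ^ 3 ≤ n) (h : IsIndex (Equiv.Perm (Fin n)) k) :
    2 ^ (y + 1) < k ^ 8 := by
  obtain ⟨⟨hk2, hP⟩, -⟩ := h
  have h1 : 2 ^ (y + 1) < k ^ 3 * (y + 1) := by
    by_contra hc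
    push Not at hc
    exact core y n k hn hc hP
  have h2 := aux_sq (y + 1)
  have h3 : (2 ^ (y + 1)) ^ 2 < (k ^ 3 * (y + 1)) ^ 2 := Nat.pow_lt_pow_left h1 (by norm_num)
  have h4 : (2 ^ (y + 1)) * (2 ^ (y + 1)) < (4 * k ^ 6) * 2 ^ (y + 1) := by
    calc (2 ^ (y + 1)) * (2 ^ (y + 1)) = (2 ^ (y + 1)) ^ 2 := by ring
      _ < (k ^ 3 * (y + 1)) ^ 2 := h3
      _ = k ^ 6 * (y + 1) ^ 2 := by ring
      _ ≤ k ^ 6 * (4 * 2 ^ (y + 1)) := Nat.mul_le_mul_left _ h2
      _ = (4 * k ^ 6) * 2 ^ (y + 1) := by ring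
  have h5 : 2 ^ (y + 1) < 4 * k ^ 6 := Nat.lt_of_mul_lt_mul_right h4
  have h6 : 4 * k ^ 6 ≤ k ^ 8 := by
    have : 4 ≤ k ^ 2 := by nlinarith
    calc 4 * k ^ 6 ≤ k ^ 2 * k ^ 6 := Nat.mul_le_mul_right _ this
      _ = k ^ 8 := by ring
  omega

theorem index_lower (n k : ℕ) (h : IsIndex (Equiv.Perm (Fin n)) k) :
    (2 : ℝ) ^ ((n : ℝ) ^ (1 / 3 : ℝ) / 8) < k := by
  obtain ⟨y, hy1, hy2⟩ : ∃ y : ℕ, y ^ 3 ≤ n ∧ n < (y + 1) ^ 3 := by
    refine ⟨Nat.findGreatest (fun y => y ^ 3 ≤ n) n, ?_, ?_⟩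
    · exact Nat.findGreatest_spec (P := fun y => y ^ 3 ≤ n) (Nat.zero_le n) (by simp)
    · by_contra hc
      push Not at hc
      have h1 : Nat.findGreatest (fun y => y ^ 3 ≤ n) n + 1 ≤ n := by
        refine le_trans ?_ hc
        exact Nat.le_self_pow (by norm_num) _
      have := Nat.le_findGreatest (P := fun y => y ^ 3 ≤ n) h1 hc
      omega
  have h1 := index_pow y n k hy1 h
  have hr : (n : ℝ) ^ (1 / 3 : ℝ) ≤ (y : ℝ) + 1 := by
    have h2 : (n : ℝ) ≤ ((y : ℝ) + 1) ^ (3 : ℕ) := by exact_mod_cast hy2.le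
    calc (n : ℝ) ^ (1 / 3 : ℝ) ≤ (((y : ℝ) + 1) ^ (3 : ℕ)) ^ (1 / 3 : ℝ) :=
          Real.rpow_le_rpow (by positivity) h2 (by norm_num)
      _ = (y : ℝ) + 1 := by
          rw [← Real.rpow_natCast, ← Real.rpow_mul (by positivity)]
          norm_num
  have h3 : ((2 : ℝ) ^ (((y : ℝ) + 1) / 8)) ^ (8 : ℕ) < (k : ℝ) ^ (8 : ℕ) := by
    rw [← Real.rpow_natCast, ← Real.rpow_mul (by norm_num)]
    have e : ((y : ℝ) + 1) / 8 * ((8 : ℕ) : ℝ) = ((y + 1 : ℕ) : ℝ) := by push_cast; ring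
    rw [e, Real.rpow_natCast]
    exact_mod_cast h1
  have h4 : (2 : ℝ) ^ (((y : ℝ) + 1) / 8) < k := lt_of_pow_lt_pow_left₀ 8 (by positivity) h3
  refine lt_of_le_of_lt ?_ h4
  apply Real.rpow_le_rpow_of_exponent_le (by norm_num)
  linarith

theorem exists_perm_of_list {k : ℕ} (M : List (Fin k)) (h : M.Perm (List.finRange k)) :
    ∃ σ : Equiv.Perm (Fin k), List.ofFn (fun p => σ p) = M := by
  have hlen : M.length = k := by rw [h.length_eq, List.length_finRange]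
  have hnd : M.Nodup := h.nodup_iff.mpr (List.nodup_finRange k)
  have hinj : Function.Injective (fun p : Fin k => M.get (Fin.cast hlen.symm p)) := by
    intro p q hpq
    have := List.nodup_iff_injective_get.mp hnd hpq
    simpa using this
  refine ⟨Equiv.ofBijective _ (Finite.injective_iff_bijective.mp hinj), ?_⟩
  apply List.ext_getElem
  · simp [hlen]
  · intro i h1 h2
    simp

theorem sort3 {Q : ℕ → Prop} {a b c : ℕ} (ha : Q a) (hb : Q b) (hc : Q c) (hab : a ≠ b)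
    (hac : a ≠ c) (hbc : b ≠ c) : ∃ i j l, i < j ∧ j < l ∧ Q i ∧ Q j ∧ Q l := by
  rcases lt_or_gt_of_ne hab with h1 | h1 <;> rcases lt_or_gt_of_ne hac with h2 | h2 <;>
    rcases lt_or_gt_of_ne hbc with h3 | h3
  · exact ⟨a, b, c, h1, h3, ha, hb, hc⟩
  · exact ⟨a, c, b, h2, h3, ha, hc, hb⟩
  · omega
  · exact ⟨c, a, b, h2, h1, hc, ha, hb⟩
  · exact ⟨b, a, c, h1, h2, hb, ha, hc⟩
  · omega
  · exact ⟨b, c, a, h3, h2, hb, hc, ha⟩
  · exact ⟨c, b, a, h3, h1, hc, hb, ha⟩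

theorem kperm_of_index {G : Type} [Group G] [Finite G] (A : Subgroup G)
    (hA : ∀ a ∈ A, ∀ b ∈ A, a * b = b * a) (k : ℕ) (hk : 2 * A.index ≤ k) : KPermutable G k := by
  classical
  intro x
  have : Fintype (G ⧸ A) := Fintype.ofFinite _
  obtain ⟨F, hF⟩ : ∃ F, F = List.finRange k := ⟨_, rfl⟩
  have hFn : F.Nodup := by rw [hF]; exact List.nodup_finRange k
  have hFl : F.length = k := by rw [hF, List.length_finRange]
  obtain ⟨P, hP⟩ : ∃ P : ℕ → G, P = fun p => ((F.take p).map x).prod := ⟨_, rfl⟩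
  have hcard : (Finset.univ : Finset (G ⧸ A)).card * 2 < (Finset.range (k + 1)).card := by
    rw [Finset.card_range, Finset.card_univ, ← Nat.card_eq_fintype_card, ← Subgroup.index_eq_card]
    omega
  obtain ⟨y, -, hy⟩ := Finset.exists_lt_card_fiber_of_mul_lt_card_of_maps_to
    (f := fun p => (P p : G ⧸ A)) (fun p _ => Finset.mem_univ _) hcard
  obtain ⟨a, ha, b, hb, c, hc, hab, hac, hbc⟩ := Finset.two_lt_card.mp hy
  rw [Finset.mem_filter, Finset.mem_range] at ha hb hc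
  obtain ⟨i, j, l, hij, hjl, hi, hj, hl⟩ := sort3 (Q := fun p => p < k + 1 ∧ (P p : G ⧸ A) = y)
    ha hb hc hab hac hbc
  obtain ⟨s, rfl⟩ : ∃ s, j = i + s := ⟨j - i, by omega⟩
  obtain ⟨t, rfl⟩ : ∃ t, l = i + s + t := ⟨l - (i + s), by omega⟩
  have hs : 0 < s := by omega
  have ht : 0 < t := by omega
  obtain ⟨F2, hF2⟩ : ∃ F2, F2 = (F.drop i).take s := ⟨_, rfl⟩
  obtain ⟨F3, hF3⟩ : ∃ F3, F3 = (F.drop (i + s)).take t := ⟨_, rfl⟩
  obtain ⟨F4, hF4⟩ : ∃ F4, F4 = F.drop (i + s + t) := ⟨_, rfl⟩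
  have hdec : F = F.take i ++ (F2 ++ (F3 ++ F4)) := by
    rw [hF2, hF3, hF4]
    conv_lhs => rw [← List.take_append_drop (i + s + t) F, List.take_add, List.take_add]
    simp only [List.append_assoc]
  have hPj : P (i + s) = P i * (F2.map x).prod := by
    rw [hP, hF2]; simp only
    rw [List.take_add, List.map_append, List.prod_append]
  have hPl : P (i + s + t) = P (i + s) * (F3.map x).prod := by
    rw [hP, hF3]; simp only
    rw [List.take_add, List.map_append, List.prod_append]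
  have h2A : (F2.map x).prod ∈ A := by
    have h1 : (P i : G ⧸ A) = (P (i + s) : G ⧸ A) := by rw [hi.2, hj.2]
    rw [QuotientGroup.eq, hPj, inv_mul_cancel_left] at h1
    exact h1
  have h3A : (F3.map x).prod ∈ A := by
    have h1 : (P (i + s) : G ⧸ A) = (P (i + s + t) : G ⧸ A) := by rw [hj.2, hl.2]
    rw [QuotientGroup.eq, hPl, inv_mul_cancel_left] at h1
    exact h1
  have hcomm := hA _ h2A _ h3A
  have hperm : (F.take i ++ (F3 ++ (F2 ++ F4))).Perm (List.finRange k) := by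
    rw [← hF]
    conv_rhs => rw [hdec]
    apply List.Perm.append_left
    rw [← List.append_assoc, ← List.append_assoc]
    apply List.Perm.append_right
    exact List.perm_append_comm
  obtain ⟨σ, hσ⟩ := exists_perm_of_list _ hperm
  refine ⟨σ, ?_, ?_⟩
  · rintro rfl
    have h1 : List.ofFn (fun p : Fin k => (1 : Equiv.Perm (Fin k)) p) = F := by
      rw [hF, List.ofFn_eq_map]; simp
    rw [h1, hdec] at hσ
    have h2 : F2 ++ (F3 ++ F4) = F3 ++ (F2 ++ F4) := by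
      have h3 := hσ
      have h4 : F.take i ++ (F2 ++ (F3 ++ F4)) = F.take i ++ (F3 ++ (F2 ++ F4)) := by
        rw [← hdec] at h3
        conv_lhs => rw [← hdec]
        exact h3
      exact List.append_cancel_left h4
    have hn2 : (F2 ++ (F3 ++ F4)).Nodup := by
      have := hFn
      rw [hdec] at this
      exact (List.nodup_append.mp this).2.1
    have l2 : F2 ≠ [] := by
      intro h0
      have : F2.length = 0 := by rw [h0]; rfl
      rw [hF2, List.length_take, List.length_drop, hFl] at this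
      have := hj.1
      omega
    have l3 : F3 ≠ [] := by
      intro h0
      have : F3.length = 0 := by rw [h0]; rfl
      rw [hF3, List.length_take, List.length_drop, hFl] at this
      have := hl.1
      omega
    obtain ⟨c2, t2, e2⟩ := List.exists_cons_of_ne_nil l2
    obtain ⟨c3, t3, e3⟩ := List.exists_cons_of_ne_nil l3
    rw [e2, e3] at h2 hn2
    simp only [List.cons_append, List.cons.injEq] at h2
    simp only [List.cons_append, List.nodup_cons, List.mem_append, List.mem_cons] at hn2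
    apply hn2.1
    right; left; exact h2.1
  · have h1 : List.ofFn (fun p => x (σ p)) = (F.take i ++ (F3 ++ (F2 ++ F4))).map x := by
      rw [← hσ, List.map_ofFn]; rfl
    have h2 : List.ofFn x = (F.take i ++ (F2 ++ (F3 ++ F4))).map x := by
      rw [← hdec, hF, List.ofFn_eq_map]
    rw [h1, h2]
    simp only [List.map_append, List.prod_append]
    rw [← mul_assoc (F2.map x).prod, hcomm, mul_assoc (F3.map x).prod]

/-- the elementary abelian group generated by disjoint `3`-cycles -/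
def phi (m : ℕ) : (Fin m → Multiplicative (ZMod 3)) →* Equiv.Perm (Fin m × ZMod 3) where
  toFun f :=
    { toFun := fun w => (w.1, w.2 + Multiplicative.toAdd (f w.1))
      invFun := fun w => (w.1, w.2 - Multiplicative.toAdd (f w.1))
      left_inv := fun w => by simp
      right_inv := fun w => by simp }
  map_one' := by ext w <;> simp
  map_mul' f h := by
    apply Equiv.ext
    rintro ⟨i, z⟩
    simp only [Equiv.coe_fn_mk, Equiv.Perm.mul_apply, Pi.mul_apply, toAdd_mul]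
    congr 1
    ring

theorem phi_inj (m : ℕ) : Function.Injective (phi m) := by
  intro f h hfh
  funext i
  have := congrArg (fun φ : Equiv.Perm (Fin m × ZMod 3) => (φ (i, 0)).2) hfh
  simp only [phi, MonoidHom.coe_mk, OneHom.coe_mk, Equiv.coe_fn_mk, zero_add] at this
  exact Multiplicative.toAdd.injective this


theorem abelian_subgroup (n : ℕ) : ∃ A : Subgroup (Equiv.Perm (Fin n)),
    (∀ a ∈ A, ∀ b ∈ A, a * b = b * a) ∧ A.index * 3 ^ (n / 3) = n.factorial := by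
  have hcard : Fintype.card (Fin (n / 3) × ZMod 3) ≤ Fintype.card (Fin n) := by
    rw [Fintype.card_prod, Fintype.card_fin, Fintype.card_fin, ZMod.card]
    exact Nat.div_mul_le_self n 3
  obtain ⟨ι⟩ := Function.Embedding.nonempty_of_card_le hcard
  obtain ⟨ψ, hψ⟩ : ∃ ψ : (Fin (n / 3) → Multiplicative (ZMod 3)) →* Equiv.Perm (Fin n),
      ψ = (Equiv.Perm.viaEmbeddingHom ι).comp (phi (n / 3)) := ⟨_, rfl⟩
  have hinj : Function.Injective ψ := by
    rw [hψ]; exact (Equiv.Perm.viaEmbeddingHom_injective ι).comp (phi_inj _)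
  refine ⟨ψ.range, ?_, ?_⟩
  · rintro a ⟨f, rfl⟩ b ⟨g, rfl⟩
    rw [← map_mul, ← map_mul, mul_comm]
  · have hc : Nat.card ψ.range = 3 ^ (n / 3) := by
      rw [Nat.card_congr (MonoidHom.ofInjective hinj).toEquiv.symm, Nat.card_fun,
        Nat.card_eq_fintype_card, Nat.card_eq_fintype_card, Fintype.card_fin]
      rfl
    rw [← hc, mul_comm, Subgroup.card_mul_index, Nat.card_eq_fintype_card, Fintype.card_perm,
      Fintype.card_fin]

theorem exists_index (n : ℕ) : ∃ k : ℕ, IsIndex (Equiv.Perm (Fin n)) k ∧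
    k * 3 ^ (n / 3) ≤ 2 * n.factorial := by
  classical
  obtain ⟨A, hA, hi⟩ := abelian_subgroup n
  have h1 : 0 < A.index := Nat.pos_of_ne_zero Subgroup.index_ne_zero_of_finite
  have hmem : 2 ≤ 2 * A.index ∧ KPermutable (Equiv.Perm (Fin n)) (2 * A.index) :=
    ⟨by omega, kperm_of_index A hA _ le_rfl⟩
  have hex : ∃ j : ℕ, 2 ≤ j ∧ KPermutable (Equiv.Perm (Fin n)) j := ⟨_, hmem⟩
  have hleast : IsIndex (Equiv.Perm (Fin n)) (Nat.find hex) :=
    ⟨Nat.find_spec hex, fun j hj => Nat.find_min' hex hj⟩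
  refine ⟨Nat.find hex, hleast, ?_⟩
  have h2 : Nat.find hex ≤ 2 * A.index := Nat.find_min' hex hmem
  calc Nat.find hex * 3 ^ (n / 3) ≤ 2 * A.index * 3 ^ (n / 3) := Nat.mul_le_mul_right _ h2
    _ = 2 * n.factorial := by rw [mul_assoc, hi]

theorem not_two : ¬ KPermutable (Equiv.Perm (Fin 3)) 2 := by
  intro h
  have := h ![Equiv.swap 0 1, Equiv.swap 1 2]
  revert this
  decide

theorem not_three : ¬ KPermutable (Equiv.Perm (Fin 3)) 3 := by
  intro h
  have := h ![Equiv.swap 1 2, Equiv.swap 0 1 * Equiv.swap 1 2, Equiv.swap 0 1]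
  revert this
  decide

theorem index_three : IsIndex (Equiv.Perm (Fin 3)) 4 := by
  obtain ⟨k, hk, hle⟩ := exists_index 3
  have h1 : k ≤ 4 := by
    have : k * 3 ≤ 12 := hle
    omega
  have h2 : 2 ≤ k := hk.1.1
  have h3 : k ≠ 2 := by rintro rfl; exact not_two hk.1.2
  have h4 : k ≠ 3 := by rintro rfl; exact not_three hk.1.2
  have : k = 4 := by omega
  rw [← this]; exact hk

/-- Main theorem. -/
theorem result :
    (∀ n : ℕ, ∃ k : ℕ, IsIndex (Equiv.Perm (Fin n)) k ∧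
      (2 : ℝ) ^ ((n : ℝ) ^ (1 / 3 : ℝ) / 8) < k ∧ k * 3 ^ (n / 3) ≤ 2 * n.factorial) ∧
    IsIndex (Equiv.Perm (Fin 3)) 4 := by
  refine ⟨fun n => ?_, index_three⟩
  obtain ⟨k, hk, hle⟩ := exists_index n
  exact ⟨k, hk, index_lower n k hk, hle⟩

end Pool.Agent.Results.MP_c6e9f4_al.SuperPolyIndex
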